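import Pool.Agent.H18.AS.Fin

/-!
# The Gyárfás–Sumner conjecture for unions of boundedly many classes of association schemes

For every forest `F` and every `r` there is a function `f` such that `χ(G) ≤ f(ω(G))` for every
finite graph `G` without induced `F` which is a union of at most `r` classes of an association
scheme which is commutative, or more generally in which all closed subsets commute with the classes
in `G`.  The scheme may have any number of classes, the classes in `G` may have valencies of
different orders of magnitude, and the scheme may be imprimitive.  Corollaries: graphs with a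
generously transitive group of automorphisms with at most `r` orbits on arcs, and Cayley graphs of
arbitrary finite groups whose connection set is a union of at most `r` conjugacy classes.  For
primitive schemes (in particular for vertex primitive graphs with at most `r` orbits on arcs) even
the degree of `G` is at most `f(ω(G))`.

Proof.  The classes in `G` are treated scale by scale.  Let `P` be the part of `G` which has not been
treated, `d` its degree and `L ⊆ P` the union of the classes of valency at least `λ d`, where `λ` is
chosen such that the other classes of `P` are much smaller.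

* If a class of `P` has a positive proportion of the arcs from one vertex in one block of a closed
  subset found before, then the neighbourhoods in this class are covered by boundedly many blocks,
  and since the closed subset commutes with the class, the quotient graph has bounded degree.
* Otherwise the treated part of `G` has few edges into the neighbourhoods in `P`.  Trees are embedded
  by light continuations as for arc-transitive graphs (this needs no bound for the degree of `G`), or
  the neighbourhoods of the neighbours of a vertex are nearly contained in a set of `O(d)` vertices.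
  With the packing lemma for graphs of bounded Vapnik–Chervonenkis dimension the balls
  `{v : |N_P(u) \ N_P(v)| ≤ t d}` have at least `c t ^ a d` elements, for `t` not too small.  So there is
  a scale `t` at which the balls grow slowly, and a double counting shows that a vertex which is
  adjacent to the centre of such a ball by an arc of `L` is adjacent to almost the whole ball.  Hence
  a vertex adjacent to `u` remains adjacent to almost all of the ball when the centre moves in small
  steps: the closed subset generated by the pairs at distance at most `t / 4` has blocks of near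
  twins.  It contains no arcs of `L`, and the neighbourhoods in `L` are covered by boundedly many
  blocks.
* The arcs of `G` in the blocks are coloured by induction on the number of the classes in `G`.
-/

set_option autoImplicit false

namespace Pool.Agent.Results.MP_763321_co.AssociationSchemes

/-- The partition of the ordered pairs of vertices into the classes `cl x y = i` is an association
scheme in the general (not necessarily commutative) sense, that is a homogeneous coherent
configuration: the diagonal is one class, reversing all pairs of a class gives a class, and for all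
classes `i`, `j` the number of `z` with `x z` in `i` and `z y` in `j` depends only on the class of
`x y`. -/
structure IsScheme {V I : Type} (cl : V → V → I) : Prop where
  diag : ∀ x y z, cl x x = cl y z ↔ y = z
  symm : ∀ x y x' y', cl x y = cl x' y' → cl y x = cl y' x'
  count : ∀ x y x' y', cl x y = cl x' y' → ∀ i j,
    {z | cl x z = i ∧ cl z y = j}.ncard = {z | cl x' z = i ∧ cl z y' = j}.ncard

/-- `E` is a closed subset (a parabolic): an equivalence relation which is a union of classes. -/
def IsClosed {V I : Type} (cl : V → V → I) (E : V → V → Prop) : Prop :=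
  Equivalence E ∧ ∀ x y x' y', cl x y = cl x' y' → E x y → E x' y'

/-- All closed subsets commute with the classes in `G`: every pair which is composed of a pair of
`E` and a pair of a class `i` in `G` is also composed of a pair of `i` and a pair of `E`.  (If this
holds for all classes `i` then the closed subsets are called normal.) -/
def AllClosedCommute {V I : Type} (cl : V → V → I) (G : SimpleGraph V) : Prop :=
  ∀ E, IsClosed cl E → ∀ x y z, E x y → G.Adj y z → ∃ w, cl x w = cl y z ∧ E w z

/-- The scheme is commutative. -/
def IsCommutative {V I : Type} (cl : V → V → I) : Prop :=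
  ∀ x y i j, {z | cl x z = i ∧ cl z y = j}.ncard = {z | cl x z = j ∧ cl z y = i}.ncard

/-- The scheme is primitive: the only closed subsets are equality and the full relation. -/
def IsPrimitive {V I : Type} (cl : V → V → I) : Prop :=
  ∀ E, IsClosed cl E → (∀ x y, E x y → x = y) ∨ ∀ x y, E x y

/-- `G` is a union of at most `r` classes. -/
def IsUnion {V I : Type} (cl : V → V → I) (G : SimpleGraph V) (r : ℕ) : Prop :=
  (∀ x y x' y', cl x y = cl x' y' → G.Adj x y → G.Adj x' y') ∧
    {i | ∃ x y, cl x y = i ∧ G.Adj x y}.ncard ≤ r

/-- The group `Γ` acts on the vertices by automorphisms of `G` and has at most `r` orbits on the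
arcs (the ordered pairs of adjacent vertices). -/
def ArcOrbits (Γ : Type) {V : Type} [Group Γ] [MulAction Γ V] (G : SimpleGraph V) (r : ℕ) : Prop :=
  (∀ (g : Γ) x y, G.Adj x y → G.Adj (g • x) (g • y)) ∧
    {o | ∃ x y, MulAction.orbit Γ (x, y) = o ∧ G.Adj x y}.ncard ≤ r

theorem result (m : ℕ) (F : SimpleGraph (Fin m)) (hF : F.IsAcyclic) (r : ℕ) :
    ∃ f : ℕ → ℕ,
      (∀ (V I : Type) [Finite V] (cl : V → V → I) (G : SimpleGraph V), IsScheme cl →
        IsUnion cl G r → ¬ F.IsIndContained G →
        (AllClosedCommute cl G ∨ IsCommutative cl → G.chromaticNumber ≤ f G.cliqueNum) ∧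
        (IsPrimitive cl → ∀ x, (G.neighborSet x).ncard ≤ f G.cliqueNum)) ∧
      (∀ (V Γ : Type) [Finite V] [Group Γ] [MulAction Γ V] (G : SimpleGraph V),
        ArcOrbits Γ G r → ¬ F.IsIndContained G →
        ((∀ x y : V, ∃ g : Γ, g • x = y ∧ g • y = x) → G.chromaticNumber ≤ f G.cliqueNum) ∧
        (MulAction.IsPreprimitive Γ V → ∀ x, (G.neighborSet x).ncard ≤ f G.cliqueNum)) ∧
      ∀ (Γ : Type) [Group Γ] [Finite Γ] (S : Set Γ) (G : SimpleGraph Γ),
        (∀ x y, G.Adj x y ↔ x⁻¹ * y ∈ S) → (∀ g, ∀ s ∈ S, g * s * g⁻¹ ∈ S) →
        {c | ∃ s ∈ S, ConjClasses.mk s = c}.ncard ≤ r → ¬ F.IsIndContained G →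
        G.chromaticNumber ≤ f G.cliqueNum := by
  classical
  have hcl : ∀ (V : Type) [Finite V] (G : SimpleGraph V), G.CliqueFree (max G.cliqueNum 1 + 1) := by
    intro V _ G
    have : Fintype V := Fintype.ofFinite V
    intro s hs
    have h1 := hs.isClique.card_le_cliqueNum
    rw [hs.card_eq] at h1
    have h2 := le_max_left G.cliqueNum 1
    omega
  choose! C hC using fun k (hk : 1 ≤ k) => Pool.Agent.H18.AS.main_bd F hF k hk r
  choose! D hD using fun k (hk : 1 ≤ k) => Pool.Agent.H18.AS.prim_deg m F hF k hk r
  set f : ℕ → ℕ := fun k => max (C (max k 1)) (D (max k 1)) with hf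
  have hnb : ∀ (V : Type) [Fintype V] (G : SimpleGraph V) (x : V),
      (G.neighborSet x).ncard = (Pool.Agent.Y394.AT.nb G x).card := by
    intro V _ G x
    have : (G.neighborSet x) = ((Pool.Agent.Y394.AT.nb G x : Finset V) : Set V) := by
      ext w
      rw [Finset.mem_coe, Pool.Agent.Y394.AT.mem_nb, SimpleGraph.mem_neighborSet]
    rw [this, Set.ncard_coe_finset]
  -- the bound for the chromatic number
  have hchi : ∀ (V I : Type) [Finite V] (cl : V → V → I) (G : SimpleGraph V),
      Pool.Agent.Q112.GS.Coh cl → Pool.Agent.H18.AS.Diag cl → Pool.Agent.H18.AS.Normal cl G →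
      Pool.Agent.H18.AS.UC cl G → {i | ∃ x y, cl x y = i ∧ G.Adj x y}.ncard ≤ r →
      ¬ F.IsIndContained G → G.chromaticNumber ≤ f G.cliqueNum := by
    intro V I _ cl G h1 h2 h3 h4 h5 h6
    have : Fintype V := Fintype.ofFinite V
    have h7 := (hC (max G.cliqueNum 1) (le_max_right _ _) V I cl G h1 h2 h3 h4 h5 (hcl V G)
      ⟨fun e => h6 ⟨e⟩⟩).mono (le_max_left _ (D (max G.cliqueNum 1)))
    exact h7.chromaticNumber_le
  have hdeg : ∀ (V I : Type) [Finite V] (cl : V → V → I) (G : SimpleGraph V),
      Pool.Agent.Q112.GS.Coh cl → Pool.Agent.H18.AS.Diag cl → Pool.Agent.H18.AS.Prim cl →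
      Pool.Agent.H18.AS.UC cl G → {i | ∃ x y, cl x y = i ∧ G.Adj x y}.ncard ≤ r →
      ¬ F.IsIndContained G → ∀ x, (G.neighborSet x).ncard ≤ f G.cliqueNum := by
    intro V I _ cl G h1 h2 h3 h4 h5 h6 x
    have : Fintype V := Fintype.ofFinite V
    rw [hnb V G x]
    exact (hD (max G.cliqueNum 1) (le_max_right _ _) V I cl G h1 h2 h3 h4 h5 (hcl V G)
      ⟨fun e => h6 ⟨e⟩⟩ x).trans (le_max_right _ _)
  refine ⟨f, ?_, ?_, ?_⟩
  · intro V I _ cl G hS hU hFG
    have : Fintype V := Fintype.ofFinite V
    have hcoh : Pool.Agent.Q112.GS.Coh cl :=
      { symm := hS.symm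
        count := hS.count
        homog := fun x y => (hS.diag x y y).2 rfl }
    have hdiag : Pool.Agent.H18.AS.Diag cl := fun x y z => (hS.diag x y z).1
    refine ⟨?_, ?_⟩
    · rintro (hN | hc)
      · exact hchi V I cl G hcoh hdiag (fun E hE => hN E ⟨hE.equiv, hE.inv⟩) hU.1 hU.2 hFG
      · exact hchi V I cl G hcoh hdiag (Pool.Agent.H18.AS.normal_of_comm hc G) hU.1 hU.2 hFG
    · intro hp
      exact hdeg V I cl G hcoh hdiag (fun E hE => hp E ⟨hE.equiv, hE.inv⟩) hU.1 hU.2 hFG
  · intro V Γ _ _ _ G hG hFG
    have : Fintype V := Fintype.ofFinite V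
    have huc := Pool.Agent.H18.AS.uc_pcl (Γ := Γ) G hG.1
    refine ⟨?_, ?_⟩
    · intro hgen
      have hcoh : Pool.Agent.Q112.GS.Coh (Pool.Agent.Q112.GS.pcl Γ (V := V)) :=
        Pool.Agent.Q112.GS.coh_of_transitive fun u v => by
          obtain ⟨g, h1, _⟩ := hgen u v
          exact ⟨g, h1⟩
      exact hchi V _ (Pool.Agent.Q112.GS.pcl Γ) G hcoh Pool.Agent.H18.AS.diag_pcl
        (Pool.Agent.H18.AS.normal_of_comm (Pool.Agent.H18.AS.comm_of_symm hcoh
          (Pool.Agent.H18.AS.pcl_symm_of hgen)) G) huc hG.2 hFG
    · intro hprim
      have hcoh : Pool.Agent.Q112.GS.Coh (Pool.Agent.Q112.GS.pcl Γ (V := V)) :=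
        Pool.Agent.Q112.GS.coh_of_transitive fun u v => MulAction.exists_smul_eq Γ u v
      exact hdeg V _ (Pool.Agent.Q112.GS.pcl Γ) G hcoh Pool.Agent.H18.AS.diag_pcl
        Pool.Agent.H18.AS.prim_pcl huc hG.2 hFG
  · intro Γ _ _ S G hG hS hr hFG
    have : Fintype Γ := Fintype.ofFinite Γ
    refine hchi Γ _ Pool.Agent.H18.AS.qcl G Pool.Agent.H18.AS.coh_qcl
      Pool.Agent.H18.AS.diag_qcl
      (Pool.Agent.H18.AS.normal_of_comm Pool.Agent.H18.AS.comm_qcl G) ?_ ?_ hFG
    · intro x y x' y' h hxy
      rw [Pool.Agent.H18.AS.qcl_eq] at h
      obtain ⟨g, hg⟩ := h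
      rw [hG] at hxy ⊢
      rw [← hg]
      exact hS g _ hxy
    · refine le_trans (le_of_eq ?_) hr
      congr 1
      ext o
      simp only [Set.mem_ofPred_eq]
      constructor
      · rintro ⟨x, y, h1, h2⟩
        exact ⟨x⁻¹ * y, (hG x y).1 h2, h1⟩
      · rintro ⟨s, hs, h1⟩
        refine ⟨1, s, ?_, ?_⟩
        · unfold Pool.Agent.H18.AS.qcl
          rw [inv_one, one_mul]
          exact h1
        · rw [hG, inv_one, one_mul]
          exact hs

end Pool.Agent.Results.MP_763321_co.AssociationSchemes
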