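import Mathlib
import Pool.Agent.H18.GS.Johnson

/-!
# The Gyárfás–Sumner conjecture for generalised Johnson graphs and for products of Johnson schemes

The generalised Johnson graph `J(n, k, D)` has the `k`-subsets of an `n`-set as vertices, and
`A`, `B` are adjacent if `A ≠ B` and `|A ∩ B| ∈ D`. Here `n`, `k` and the set `D` are arbitrary; these
graphs include the Kneser graphs, all distance graphs of the Johnson schemes and all unions of them.

More generally the vertices are the `r`-tuples `A = (A_1, …, A_r)` of sets `A_i ⊆ {1, …, n_i}` whose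
sizes form one of the vectors of a finite set `P` (`|P|` orbits), and the graph is invariant under the
product of the symmetric groups of the sets `{1, …, n_i}`: unions of classes of products of `r` Johnson
schemes.

Let `F` be ANY bipartite graph with `m` vertices. Such a graph which does not contain `F` as an induced
subgraph and has clique number `ω` is `|P| 2 ^ (r (2 m (ω + 1) + 4 m²))`-colourable, whatever the
numbers `n_i` are. In particular the Gyárfás–Sumner conjecture holds for these graphs.

Proof. Let `q = 2 m (ω + 1) + 4 m²`. The vertices are coloured by the sizes and by the intersections of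
the `A_i` with the first `q` elements. If `A`, `B` are adjacent and have the same colour, then in each
coordinate either `A_i = B_i` or `|A_i ∩ B_i|` and the number of the elements outside `A_i ∪ B_i` add
up to at least `q`. Among the adjacent pairs of vertices with the same sizes and with intersections at
least as large in all coordinates let `A'`, `B'` be one with the largest sum of the sizes of the
intersections. If `|A'_i \ B'_i| > m` for some `i`, then slight changes of `A'_i` and `B'_i` in the
coordinate `i` give an induced `F`: the non-edges are realised by larger intersections (a common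
element or a common missing element for each non-edge). Otherwise sunflowers, or their complements, in
all coordinates with `A'_i ≠ B'_i` give a clique with `ω + 1` vertices.
-/

open Finset

namespace Pool.Agent.Results.MP_763321_co.ProductsOfJohnsonSchemes

/-- The generalised Johnson graph: the `k`-subsets of an `n`-set, `A ≠ B` adjacent if
`|A ∩ B| ∈ D`. -/
def johnson (n k : ℕ) (D : Set ℕ) : SimpleGraph {A : Finset (Fin n) // A.card = k} where
  Adj A B := A ≠ B ∧ (A.1 ∩ B.1).card ∈ D
  symm := ⟨fun A B h => ⟨h.1.symm, by rw [Finset.inter_comm]; exact h.2⟩⟩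
  loopless := ⟨fun _ h => h.1 rfl⟩

/-- `G` is a graph on the tuples `(A_1, …, A_r)`, `A_i` a subset of a set with `n_i` elements, and is
invariant under all permutations of these `r` sets. -/
def Invariant {r : ℕ} {n : Fin r → ℕ} (G : SimpleGraph (∀ i, Finset (Fin (n i)))) : Prop :=
  ∀ (σ : ∀ i, Equiv.Perm (Fin (n i))) (A B : ∀ i, Finset (Fin (n i))), G.Adj A B →
    G.Adj (fun i => (A i).map (σ i).toEmbedding) (fun i => (B i).map (σ i).toEmbedding)

/-- The subgraph induced by the tuples whose vector of sizes is in `P`. -/
abbrev levels {r : ℕ} {n : Fin r → ℕ} (G : SimpleGraph (∀ i, Finset (Fin (n i))))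
    (P : Finset (Fin r → ℕ)) :
    SimpleGraph ({A | (fun i => (A i).card) ∈ P} : Set (∀ i, Finset (Fin (n i)))) :=
  G.induce {A | (fun i => (A i).card) ∈ P}

theorem part2 (m : ℕ) (F : SimpleGraph (Fin m)) (hF : F.Colorable 2) (r : ℕ) (n : Fin r → ℕ)
    (G : SimpleGraph (∀ i, Finset (Fin (n i)))) (hG : Invariant G) (P : Finset (Fin r → ℕ))
    (hFG : ¬ F.IsIndContained (levels G P)) :
    (levels G P).Colorable
      (P.card * 2 ^ (r * (2 * m * ((levels G P).cliqueNum + 1) + 4 * m ^ 2))) := by
  classical
  have h := Pool.Agent.H18.GS.main m F hF r n G hG P hFG (levels G P).cliqueNum ?_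
  · have he : P.card * (2 ^ (2 * m * ((levels G P).cliqueNum + 1) + 4 * (m * m))) ^ r =
        P.card * 2 ^ (r * (2 * m * ((levels G P).cliqueNum + 1) + 4 * m ^ 2)) := by
      rw [← pow_mul]
      congr 2
      ring
    rw [he] at h
    exact h
  · intro f hf
    let g : Fin ((levels G P).cliqueNum + 1) →
      ({A | (fun i => (A i).card) ∈ P} : Set (∀ i, Finset (Fin (n i)))) := fun i => f i
    have hg : ∀ i j, i ≠ j → (levels G P).Adj (g i) (g j) := fun i j hij => hf i j hij
    have hinj : Function.Injective g := by
      intro i j hij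
      by_contra hne
      exact (hg i j hne).ne hij
    let S : Finset ({A | (fun i => (A i).card) ∈ P} : Set (∀ i, Finset (Fin (n i)))) :=
      univ.map ⟨g, hinj⟩
    have hc : (levels G P).IsClique (S : Set _) := by
      intro x hx y hy hxy
      simp only [S, coe_map, Function.Embedding.coeFn_mk, coe_univ, Set.image_univ,
        Set.mem_range] at hx hy
      obtain ⟨i, rfl⟩ := hx
      obtain ⟨j, rfl⟩ := hy
      exact hg i j (fun hij => hxy (by rw [hij]))
    have := SimpleGraph.IsClique.card_le_cliqueNum (tc := hc)
    simp only [S, card_map, card_univ, Fintype.card_fin] at this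
    omega

/-- the Johnson graph as a graph on tuples with one member -/
def tup (n : ℕ) (D : Set ℕ) : SimpleGraph (∀ _ : Fin 1, Finset (Fin n)) where
  Adj A B := A ≠ B ∧ (A 0 ∩ B 0).card ∈ D
  symm := ⟨fun A B h => ⟨h.1.symm, by rw [Finset.inter_comm]; exact h.2⟩⟩
  loopless := ⟨fun _ h => h.1 rfl⟩

theorem tup_invariant (n : ℕ) (D : Set ℕ) : Invariant (n := fun _ => n) (tup n D) := by
  classical
  rintro σ A B ⟨h1, h2⟩
  refine ⟨fun h => h1 ?_, ?_⟩
  · funext i
    exact Finset.map_injective _ (congrFun h i)
  · change ((A 0).map (σ 0).toEmbedding ∩ (B 0).map (σ 0).toEmbedding).card ∈ D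
    rw [← Finset.map_inter, card_map]
    exact h2

/-- the two descriptions give isomorphic graphs -/
noncomputable def iso (n k : ℕ) (D : Set ℕ) :
    johnson n k D ≃g levels (n := fun _ => n) (tup n D) {fun _ => k} where
  toFun A := ⟨fun _ => A.1, by
    simp only [Set.mem_ofPred_eq, mem_singleton]
    funext i
    exact A.2⟩
  invFun A := ⟨A.1 0, by
    have := A.2
    simp only [Set.mem_ofPred_eq, mem_singleton] at this
    exact congrFun this 0⟩
  left_inv A := rfl
  right_inv A := by
    apply Subtype.ext
    funext i
    have : i = 0 := Subsingleton.elim _ _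
    subst this
    rfl
  map_rel_iff' := by
    intro A B
    simp only [johnson, tup, SimpleGraph.comap_adj, Function.Embedding.subtype_apply,
      Equiv.coe_fn_mk]
    constructor
    · rintro ⟨h1, h2⟩
      exact ⟨fun h => h1 (by rw [h]), h2⟩
    · rintro ⟨h1, h2⟩
      exact ⟨fun h => h1 (Subtype.ext (congrFun h 0)), h2⟩

theorem part1 (m : ℕ) (F : SimpleGraph (Fin m)) (hF : F.Colorable 2) (n k : ℕ) (D : Set ℕ)
    (hFG : ¬ F.IsIndContained (johnson n k D)) :
    (johnson n k D).Colorable (2 ^ (2 * m * ((johnson n k D).cliqueNum + 1) + 4 * m ^ 2)) := by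
  classical
  have e := iso n k D
  have h1 : ¬ F.IsIndContained (levels (n := fun _ => n) (tup n D) {fun _ => k}) := by
    rintro ⟨f⟩
    exact hFG ⟨e.symm.toEmbedding.comp f⟩
  have h2 := part2 m F hF 1 (fun _ => n) (tup n D) (tup_invariant n D) {fun _ => k} h1
  have h3 : (levels (n := fun _ => n) (tup n D) {fun _ => k}).cliqueNum =
      (johnson n k D).cliqueNum := by
    apply le_antisymm
    · obtain ⟨s, hs⟩ := SimpleGraph.exists_isNClique_cliqueNum
        (G := levels (n := fun _ => n) (tup n D) {fun _ => k})
      have h4 := hs.map (f := e.symm.toEmbedding.toEmbedding)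
      have h5 : (johnson n k D).IsNClique
          (levels (n := fun _ => n) (tup n D) {fun _ => k}).cliqueNum
          (s.map e.symm.toEmbedding.toEmbedding) := by
        refine h4.mono ?_
        rw [SimpleGraph.map_le_iff_le_comap]
        intro x y hxy
        exact e.symm.map_rel_iff.mpr hxy
      rw [← h5.card_eq]
      exact SimpleGraph.IsClique.card_le_cliqueNum (tc := h5.isClique)
    · obtain ⟨s, hs⟩ := SimpleGraph.exists_isNClique_cliqueNum (G := johnson n k D)
      have h4 := hs.map (f := e.toEmbedding.toEmbedding)
      have h5 : (levels (n := fun _ => n) (tup n D) {fun _ => k}).IsNClique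
          (johnson n k D).cliqueNum (s.map e.toEmbedding.toEmbedding) := by
        refine h4.mono ?_
        rw [SimpleGraph.map_le_iff_le_comap]
        intro x y hxy
        exact e.map_rel_iff.mpr hxy
      rw [← h5.card_eq]
      exact SimpleGraph.IsClique.card_le_cliqueNum (tc := h5.isClique)
  rw [h3] at h2
  rw [card_singleton, one_mul, one_mul] at h2
  obtain ⟨c⟩ := h2
  exact ⟨c.comp e.toHom⟩

/-- (1) Generalised Johnson graphs. (2) Graphs on tuples of sets with `|P|` vectors of sizes, invariant
under the product of the symmetric groups. (3) The Gyárfás–Sumner conjecture for the latter: the bound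
depends only on the forest, on the number `r` of coordinates, on the number `|P| ≤ s` of orbits and on
the clique number. -/
theorem result :
    (∀ (m : ℕ) (F : SimpleGraph (Fin m)), F.Colorable 2 → ∀ (n k : ℕ) (D : Set ℕ),
      ¬ F.IsIndContained (johnson n k D) →
      (johnson n k D).Colorable (2 ^ (2 * m * ((johnson n k D).cliqueNum + 1) + 4 * m ^ 2))) ∧
    (∀ (m : ℕ) (F : SimpleGraph (Fin m)), F.Colorable 2 → ∀ (r : ℕ) (n : Fin r → ℕ)
      (G : SimpleGraph (∀ i, Finset (Fin (n i)))), Invariant G → ∀ P : Finset (Fin r → ℕ),
      ¬ F.IsIndContained (levels G P) →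
      (levels G P).Colorable
        (P.card * 2 ^ (r * (2 * m * ((levels G P).cliqueNum + 1) + 4 * m ^ 2)))) ∧
    (∀ (m : ℕ) (F : SimpleGraph (Fin m)), F.IsAcyclic → ∀ r s : ℕ, ∃ f : ℕ → ℕ,
      ∀ (n : Fin r → ℕ) (G : SimpleGraph (∀ i, Finset (Fin (n i)))), Invariant G →
      ∀ P : Finset (Fin r → ℕ), P.card ≤ s → ¬ F.IsIndContained (levels G P) →
      (levels G P).chromaticNumber ≤ f (levels G P).cliqueNum) := by
  refine ⟨part1, part2, ?_⟩
  intro m F hF r s
  refine ⟨fun w => s * 2 ^ (r * (2 * m * (w + 1) + 4 * m ^ 2)), ?_⟩
  intro n G hG P hP hFG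
  refine (part2 m F hF.colorable_two r n G hG P hFG).chromaticNumber_le.trans ?_
  exact_mod_cast Nat.mul_le_mul_right _ hP

end Pool.Agent.Results.MP_763321_co.ProductsOfJohnsonSchemes
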