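import Mathlib
import Pool.Agent.H18.SN.Group

/-!
# The Gyárfás–Sumner conjecture for conjugation-invariant Cayley graphs of symmetric groups

`mulCayley C` is the Cayley graph of the group `Γ` with the set `C` of generators: `x ≠ y` are
adjacent if `x⁻¹ y` or `y⁻¹ x` is in `C`.

Let `N` be a subgroup of the finite group `Γ` which is isomorphic to a product of alternating groups
`A_{n_1} × … × A_{n_r}`, and let `C` be a subset of `Γ` which is invariant under conjugation by the
elements of `N`. For instance `Γ` is a symmetric group or an alternating group, or a product of such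
groups, or a wreath product of a symmetric group with a small group, and `C` is any union of
conjugacy classes. Let `F` be a forest with `m` vertices (or any induced subgraph with `m` vertices of
a cube). If the Cayley graph `G` of `Γ` and `C` does not contain `F` as an induced subgraph and has
clique number `ω`, then `G` is colourable with

  `[Γ : N] (K !) ^ t`

colours, where `K` is an explicit polynomial in `m` and `ω` and `t` is the number of the `n_i` which are
smaller than `K`. If all `n_i` are large, then the cosets of `N` are independent sets; in particular all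
such Cayley graphs of the symmetric groups `S_n`, `n ≥ K`, are bipartite.

Proof. It suffices to show: if all `n_i` are large and `C ⊆ N` is invariant and symmetric and contains
an element other than `1`, then the Cayley graph of `N` and `C` contains an induced `F` or a clique of
size `ω + 1`. Let `τ ≠ 1` be an element of `C` which moves as few points as possible.

1. Let `p`, `q` be points of one coordinate moved by `τ`, `q ≠ p, τ p`, let `c`, `d` be the
   transpositions `(τ p, q)` and `(τ p, τ q)`, let `A = c τ c⁻¹ τ⁻¹` and `b = τ⁻¹ d τ d⁻¹`. Then `A τ`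
   and `τ b` are conjugate to `τ` and `A τ b` fixes `q` and all fixed points of `τ`. If `τ` moves many
   points, then there are `2 m²` such pairs which do not interfere, with `A_i`, `b_i`. Put
   `X_U = ∏_{i ∈ U} A_i⁻¹`, `Y_W = τ ∏_{i ∈ W} b_i`: if `U` and `W` are disjoint, then `X_U⁻¹ Y_W` is
   conjugate to `τ`, and if they have one common element, then it moves fewer points than `τ` and is
   not in `C`. So all bipartite graphs with `m` vertices are induced subgraphs.
2. Otherwise `τ` lives in a block of bounded size. The copies of `τ` in disjoint blocks commute, and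
   the product of `q` copies in different blocks is in `C` for some large `q`: otherwise let `q` be
   maximal below some bound; products of `q`-tuples of copies give induced cubes.
3. Let `κ` be an element of a block and let `κ' = A κ b` be as in 1. If a product of copies of `κ` in
   `2 m²` blocks and of elements of other blocks is in `C`, then one of these copies can be replaced by
   `κ'`; otherwise `F` is embedded as in 1 (elements of the form `e · (copy of e)` are not in `C` since
   they give cliques). From 2 we get after boundedly many rounds an element `e · (copy of e)`,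
   `e ≠ 1`, of `C`, a contradiction.

That forests are induced subgraphs of cubes is taken from the starting library.
-/

open Finset Equiv

namespace Pool.Agent.Results.MP_763321_co.SymmetricGroups

/-- The `D`-dimensional cube: the subsets of a `D`-set, adjacent if they differ in one element. -/
def Cube (D : ℕ) : SimpleGraph (Finset (Fin D)) where
  Adj S T := (symmDiff S T).card = 1
  symm := ⟨fun S T h => by rw [symmDiff_comm]; exact h⟩
  loopless := ⟨fun S h => by simp at h⟩

/-- the degree from which on the alternating groups are large -/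
def large (m D ω : ℕ) : ℕ := 20000 * m ^ 9 * (2 * D + ω + 1)

theorem large_bound {m D ω : ℕ} (hm : 1 ≤ m) :
    Pool.Agent.H18.SN.deg₀ m D (ω + 1) ≤ large m D ω := by
  unfold Pool.Agent.H18.SN.deg₀ large
  have h1 : 12 * m ^ 2 + 8 * m + 1 ≤ 21 * m ^ 2 := by nlinarith
  have h2 : (12 * m ^ 2 + 8 * m + 1) ^ 3 ≤ (21 * m ^ 2) ^ 3 := Nat.pow_le_pow_left h1 3
  have h3 : 2 * m * (12 * m ^ 2 + 8 * m + 1) ^ 3 * m ^ 2 * (2 * D + (ω + 1)) ≤
      18522 * m ^ 9 * (2 * D + (ω + 1)) := by
    apply Nat.mul_le_mul_right
    calc 2 * m * (12 * m ^ 2 + 8 * m + 1) ^ 3 * m ^ 2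
        ≤ 2 * m * (21 * m ^ 2) ^ 3 * m ^ 2 :=
          Nat.mul_le_mul_right _ (Nat.mul_le_mul_left _ h2)
      _ = 18522 * m ^ 9 := by ring
  have h4 : 23 * m ^ 2 ≤ 23 * m ^ 9 :=
    Nat.mul_le_mul_left _ (Nat.pow_le_pow_right hm (by norm_num))
  have h5 : 23 * m ^ 9 ≤ 23 * m ^ 9 * (2 * D + (ω + 1)) := Nat.le_mul_of_pos_right _ (by omega)
  have h6 : 2 ≤ 2 * m ^ 2 := by
    have : 1 ≤ m ^ 2 := Nat.one_le_pow _ _ hm
    omega
  have h7 : 20000 * m ^ 9 * (2 * D + ω + 1) = 18522 * m ^ 9 * (2 * D + (ω + 1)) +
      23 * m ^ 9 * (2 * D + (ω + 1)) + 1455 * m ^ 9 * (2 * D + (ω + 1)) := by ring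
  omega

theorem part1 (D m : ℕ) (F : SimpleGraph (Fin m)) (hF : F.IsIndContained (Cube D))
    (Γ : Type) [Group Γ] [Finite Γ] (N : Subgroup Γ) (R : Type) [Fintype R] (n : R → ℕ)
    (e : N ≃* ∀ i, alternatingGroup (Fin (n i))) (C : Set Γ)
    (hC : ∀ g ∈ N, ∀ x ∈ C, g * x * g⁻¹ ∈ C)
    (hFG : ¬ F.IsIndContained (SimpleGraph.mulCayley C)) :
    (SimpleGraph.mulCayley C).Colorable
      (N.index * (large m D (SimpleGraph.mulCayley C).cliqueNum).factorial ^
        (univ.filter fun i => n i < large m D (SimpleGraph.mulCayley C).cliqueNum).card) := by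
  have hm : 1 ≤ m := by
    by_contra h
    apply hFG
    have h1 : m = 0 := by omega
    subst h1
    exact ⟨⟨⟨fun u => u.elim0, fun u => u.elim0⟩, fun {u} => u.elim0⟩⟩
  obtain ⟨f⟩ := hF
  exact Pool.Agent.H18.SN.main_group N n e C hC F (fun u => f u) f.injective
    (fun u v => (f.map_adj_iff (v := u) (w := v)).symm) hFG _ _ (Nat.lt_succ_self _)
    (large_bound hm)

theorem forest (m : ℕ) (F : SimpleGraph (Fin m)) (hF : F.IsAcyclic) :
    F.IsIndContained (Cube m) := by
  obtain ⟨φ, h1, h2⟩ := Pool.Agent.H18.SN.forest_cube F hF
  exact ⟨⟨⟨φ, h1⟩, fun {u v} => (h2 u v).symm⟩⟩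

/-- Let `N` be a subgroup of the finite group `Γ` which is isomorphic to the product of the
alternating groups of degrees `n i`, and let `C` be invariant under conjugation by `N`. -/
theorem result :
    -- (1) induced subgraphs `F` of cubes
    (∀ (D m : ℕ) (F : SimpleGraph (Fin m)), F.IsIndContained (Cube D) →
      ∀ (Γ : Type) [Group Γ] [Finite Γ] (N : Subgroup Γ) (R : Type) [Fintype R] (n : R → ℕ)
        (_ : N ≃* ∀ i, alternatingGroup (Fin (n i))) (C : Set Γ),
        (∀ g ∈ N, ∀ x ∈ C, g * x * g⁻¹ ∈ C) →
        ¬ F.IsIndContained (SimpleGraph.mulCayley C) →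
        (SimpleGraph.mulCayley C).Colorable
          (N.index * (large m D (SimpleGraph.mulCayley C).cliqueNum).factorial ^
            (univ.filter fun i => n i < large m D (SimpleGraph.mulCayley C).cliqueNum).card)) ∧
    -- (2) forests, conjugation-invariant Cayley graphs of symmetric groups
    (∀ (m : ℕ) (F : SimpleGraph (Fin m)), F.IsAcyclic →
      ∀ (n : ℕ) (C : Set (Perm (Fin n))), (∀ g, ∀ x ∈ C, g * x * g⁻¹ ∈ C) →
        ¬ F.IsIndContained (SimpleGraph.mulCayley C) →
        large m m (SimpleGraph.mulCayley C).cliqueNum ≤ n →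
        (SimpleGraph.mulCayley C).Colorable 2) ∧
    -- (3) forests, subgroups of bounded index with a bounded number of factors
    (∀ (m : ℕ) (F : SimpleGraph (Fin m)), F.IsAcyclic → ∀ k r : ℕ, ∃ f : ℕ → ℕ,
      ∀ (Γ : Type) [Group Γ] [Finite Γ] (N : Subgroup Γ) (n : Fin r → ℕ)
        (_ : N ≃* ∀ i, alternatingGroup (Fin (n i))) (C : Set Γ), N.index ≤ k →
        (∀ g ∈ N, ∀ x ∈ C, g * x * g⁻¹ ∈ C) →
        ¬ F.IsIndContained (SimpleGraph.mulCayley C) →
        (SimpleGraph.mulCayley C).chromaticNumber ≤ f (SimpleGraph.mulCayley C).cliqueNum) := by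
  classical
  refine ⟨part1, ?_, ?_⟩
  · intro m F hF n C hC hFG hn
    have h1 := part1 m m F (forest m F hF) (Perm (Fin n)) (alternatingGroup (Fin n)) Unit
      (fun _ => n) (MulEquiv.piUnique (fun _ : Unit => alternatingGroup (Fin n))).symm C
      (fun g _ => hC g) hFG
    have h2 : (univ.filter fun _ : Unit =>
        n < large m m (SimpleGraph.mulCayley C).cliqueNum).card = 0 := by
      rw [Finset.card_eq_zero, Finset.filter_eq_empty_iff]
      intro _ _
      exact not_lt.2 hn
    rw [h2, pow_zero, mul_one] at h1
    refine h1.mono ?_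
    rcases subsingleton_or_nontrivial (Fin n) with h | h
    · rw [alternatingGroup.index_eq_one]
      norm_num
    · rw [alternatingGroup.index_eq_two]
  · intro m F hF k r
    refine ⟨fun ω => k * (large m m ω).factorial ^ r, ?_⟩
    intro Γ _ _ N n e C hk hC hFG
    have h1 := part1 m m F (forest m F hF) Γ N (Fin r) n e C hC hFG
    rw [SimpleGraph.chromaticNumber_le_iff_colorable]
    refine h1.mono ?_
    apply Nat.mul_le_mul hk
    apply Nat.pow_le_pow_right (Nat.factorial_pos _)
    exact (Finset.card_le_univ _).trans (by rw [Fintype.card_fin])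

end Pool.Agent.Results.MP_763321_co.SymmetricGroups
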